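import Pool.Agent.Helper45_PGF.Stmts
import Pool.Agent.Helper45_PGF.Basic

/-!
Module GM: specialization of a tuple of polynomials with constant term one, together with free
polynomials, subject to equations.
-/

set_option autoImplicit false

open Polynomial

universe u v v₁ v₂ v₃

namespace Pool.Agent.PGF

section HomT

variable {k Ω : Type*} [Field k]

/-- The coefficient of `X ^ j` is weighted homogeneous of weight `j`. -/
def HomT (W : Ω → ℕ) (p : (MvPolynomial Ω k)[X]) : Prop :=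
  ∀ j, (p.coeff j).IsWeightedHomogeneous W j

lemma HomT.add {W : Ω → ℕ} {p q : (MvPolynomial Ω k)[X]} (hp : HomT W p) (hq : HomT W q) :
    HomT W (p + q) := by
  intro j
  rw [coeff_add]
  exact (hp j).add (hq j)

lemma HomT.mul {W : Ω → ℕ} {p q : (MvPolynomial Ω k)[X]} (hp : HomT W p) (hq : HomT W q) :
    HomT W (p * q) := by
  intro j
  rw [coeff_mul]
  refine MvPolynomial.IsWeightedHomogeneous.sum _ _ _ fun x hx => ?_
  have h1 := (hp x.1).mul (hq x.2)
  have h2 : x.1 + x.2 = j := by simpa using hx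
  rw [h2] at h1
  exact h1

lemma homT_zero (W : Ω → ℕ) : HomT W (0 : (MvPolynomial Ω k)[X]) := by
  intro j
  rw [coeff_zero]
  exact MvPolynomial.isWeightedHomogeneous_zero _ _ _

lemma homT_const (W : Ω → ℕ) (c : k) : HomT W (C (MvPolynomial.C c) : (MvPolynomial Ω k)[X]) := by
  intro j
  rw [coeff_C]
  split_ifs with h
  · subst h
    exact MvPolynomial.isWeightedHomogeneous_C _ _
  · exact MvPolynomial.isWeightedHomogeneous_zero _ _ _

lemma homT_sum {β : Type*} (W : Ω → ℕ) (s : Finset β) (f : β → (MvPolynomial Ω k)[X])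
    (hf : ∀ b ∈ s, HomT W (f b)) : HomT W (∑ b ∈ s, f b) := by
  intro j
  rw [finsetSum_coeff]
  exact MvPolynomial.IsWeightedHomogeneous.sum _ _ _ fun b hb => hf b hb j

lemma homT_arcP (W : Ω → ℕ) (D : ℕ) (x : Fin D → Ω) (hx : ∀ q, W (x q) = q.1 + 1) :
    HomT W (PGE.arcP (1 : MvPolynomial Ω k) D fun q => MvPolynomial.X (x q)) := by
  unfold PGE.arcP
  refine HomT.add (homT_const W 1) (homT_sum W _ _ fun q _ => ?_)
  intro j
  rw [coeff_C_mul, coeff_X_pow]
  split_ifs with h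
  · rw [mul_one, h, ← hx q]
    exact MvPolynomial.isWeightedHomogeneous_X _ _ _
  · rw [mul_zero]
    exact MvPolynomial.isWeightedHomogeneous_zero _ _ _

lemma homT_aeval {A : Type*} (W : Ω → ℕ) (U : A → (MvPolynomial Ω k)[X]) (hU : ∀ α, HomT W (U α))
    (G : MvPolynomial A k) : HomT W (MvPolynomial.aeval U G) := by
  induction G using MvPolynomial.induction_on with
  | C a =>
    rw [MvPolynomial.aeval_C]
    exact homT_const W a
  | add p q hp hq =>
    rw [map_add]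
    exact hp.add hq
  | mul_X p i hp =>
    rw [map_mul, MvPolynomial.aeval_X]
    exact hp.mul (hU i)

end HomT

section tup

variable {A₁ A₂ : Type*}

/-- tuple of polynomials with constant term one and given other coefficients -/
noncomputable def tupP (D₁ : A₁ → ℕ) (D₂ : A₂ → ℕ) {R : Type*} [CommRing R]
    (ξ : (Σ α, Fin (D₁ α)) ⊕ (Σ α, Fin (D₂ α)) → R) : A₁ ⊕ A₂ → R[X] :=
  Sum.elim (fun α => PGE.arcP 1 (D₁ α) fun q => ξ (Sum.inl ⟨α, q⟩))
    (fun α => PGE.arcP 1 (D₂ α) fun q => ξ (Sum.inr ⟨α, q⟩))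

lemma tupP_map (D₁ : A₁ → ℕ) (D₂ : A₂ → ℕ) {R S : Type*} [CommRing R] [CommRing S] (φ : R →+* S)
    (ξ : (Σ α, Fin (D₁ α)) ⊕ (Σ α, Fin (D₂ α)) → R) (α : A₁ ⊕ A₂) :
    (tupP D₁ D₂ ξ α).map φ = tupP D₁ D₂ (fun s => φ (ξ s)) α := by
  rcases α with α | α
  · simp only [tupP, Sum.elim_inl]
    rw [PGE.arcP_map, map_one]
  · simp only [tupP, Sum.elim_inr]
    rw [PGE.arcP_map, map_one]

lemma tupP_coeff_zero (D₁ : A₁ → ℕ) (D₂ : A₂ → ℕ) {R : Type*} [CommRing R]
    (ξ : (Σ α, Fin (D₁ α)) ⊕ (Σ α, Fin (D₂ α)) → R) (α : A₁ ⊕ A₂) :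
    (tupP D₁ D₂ ξ α).coeff 0 = 1 := by
  rcases α with α | α
  · exact PGE.arcP_coeff_zero _ _ _
  · exact PGE.arcP_coeff_zero _ _ _

lemma tupP_natDegree (D₁ : A₁ → ℕ) (D₂ : A₂ → ℕ) {R : Type*} [CommRing R]
    (ξ : (Σ α, Fin (D₁ α)) ⊕ (Σ α, Fin (D₂ α)) → R) (α : A₁ ⊕ A₂) :
    (tupP D₁ D₂ ξ α).natDegree ≤ Sum.elim D₁ D₂ α := by
  rcases α with α | α
  · exact PGE.arcP_natDegree _ _ _
  · exact PGE.arcP_natDegree _ _ _

lemma homT_tupP {k : Type*} [Field k] (D₁ : A₁ → ℕ) (D₂ : A₂ → ℕ) (α : A₁ ⊕ A₂) :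
    HomT (Sum.elim (fun s : Σ α, Fin (D₁ α) => s.2.1 + 1) (fun s : Σ α, Fin (D₂ α) => s.2.1 + 1))
      (tupP D₁ D₂ (MvPolynomial.X : (Σ α, Fin (D₁ α)) ⊕ (Σ α, Fin (D₂ α)) →
        MvPolynomial ((Σ α, Fin (D₁ α)) ⊕ (Σ α, Fin (D₂ α))) k) α) := by
  rcases α with α | α
  · simp only [tupP, Sum.elim_inl]
    exact homT_arcP (Sum.elim (fun s : Σ α, Fin (D₁ α) => s.2.1 + 1)
      (fun s : Σ α, Fin (D₂ α) => s.2.1 + 1)) (D₁ α) (fun q => Sum.inl ⟨α, q⟩) fun q => rfl
  · simp only [tupP, Sum.elim_inr]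
    exact homT_arcP (Sum.elim (fun s : Σ α, Fin (D₁ α) => s.2.1 + 1)
      (fun s : Σ α, Fin (D₂ α) => s.2.1 + 1)) (D₂ α) (fun q => Sum.inr ⟨α, q⟩) fun q => rfl

end tup

theorem gm (h : GDStmt.{u, v, v₁, v₂, v₃}) : GMStmt.{u, v, v₁, v₂, v₃} := by
  intro k E _ _ _ _ A₁ A₂ T _ _ _ D₁ D₂ P N c n G α₀ hα₀ hP0 hPd hc hGd hG1 hnum
  classical
  let S := Σ α : A₁, Fin (D₁ α)
  let Θ := Σ α : A₂, Fin (D₂ α)
  let ω : S → ℕ := fun s => s.2.1 + 1
  let ω' : Θ → ℕ := fun s => s.2.1 + 1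
  let a : S → E := fun s => (P s.1).coeff (s.2.1 + 1)
  let U : A₁ ⊕ A₂ → (MvPolynomial (S ⊕ Θ) k)[X] := tupP D₁ D₂ MvPolynomial.X
  let T' := Option (Σ t : T, Fin (n t))
  let n' : T' → ℕ := fun o => o.elim 1 fun q => q.2.1 + 1
  let F : T' → MvPolynomial (S ⊕ Θ) k := fun o => o.elim
    (MvPolynomial.X (Sum.inl ⟨α₀, ⟨0, hα₀⟩⟩))
    fun q => (MvPolynomial.aeval U (G q.1)).coeff (q.2.1 + 1)
  have hU : ∀ α, HomT (Sum.elim ω ω') (U α) := fun α => homT_tupP D₁ D₂ α
  -- the coefficients which are algebraically independent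
  have hc1 : ∀ j, ∃ s : S, a s = (P (c j).1).coeff (c j).2 := by
    intro j
    have ht : Transcendental k ((P (c j).1).coeff (c j).2) := hc.transcendental j
    rcases Nat.eq_zero_or_pos (c j).2 with h0 | h0
    · exfalso
      rw [h0, hP0] at ht
      exact ht isAlgebraic_one
    · by_cases h1 : (c j).2 - 1 < D₁ (c j).1
      · refine ⟨⟨(c j).1, ⟨(c j).2 - 1, h1⟩⟩, ?_⟩
        change (P (c j).1).coeff ((c j).2 - 1 + 1) = _
        rw [Nat.sub_add_cancel h0]
      · exfalso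
        have h2 : (P (c j).1).coeff (c j).2 = 0 := by
          apply coeff_eq_zero_of_natDegree_lt
          have := hPd (c j).1
          omega
        rw [h2] at ht
        exact ht isAlgebraic_zero
  choose c' hc' using hc1
  have hc2 : AlgebraicIndependent k (fun j => a (c' j)) := by
    have : (fun j => a (c' j)) = fun j => (P (c j).1).coeff (c j).2 := funext hc'
    rw [this]
    exact hc
  have hcard : Fintype.card T' < N + Fintype.card Θ := by
    simp only [T', Θ, Fintype.card_option, Fintype.card_sigma, Fintype.card_fin]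
    exact hnum
  obtain ⟨v, hv0, hvF, hvG⟩ := h k E S Θ T' ω ω' a N c' n' F (fun s => Nat.succ_pos _)
    (fun s => Nat.succ_pos _) hc2
    (by
      rintro (_ | q)
      · exact Nat.one_pos
      · exact Nat.succ_pos _)
    (by
      rintro (_ | q)
      · exact MvPolynomial.isWeightedHomogeneous_X k (Sum.elim ω ω')
          (Sum.inl ⟨α₀, ⟨0, hα₀⟩⟩ : S ⊕ Θ)
      · exact homT_aeval _ U hU (G q.1) (q.2.1 + 1)) hcard
  have hQ : ∀ α, (U α).map ((MvPolynomial.aeval v : MvPolynomial (S ⊕ Θ) k →ₐ[k] k) :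
      MvPolynomial (S ⊕ Θ) k →+* k) = tupP D₁ D₂ v α := by
    intro α
    rw [tupP_map]
    simp only [RingHom.coe_coe, MvPolynomial.aeval_X]
  refine ⟨tupP D₁ D₂ v, tupP_coeff_zero _ _ _, tupP_natDegree _ _ _, ?_, ?_, ?_, ?_⟩
  · intro t
    ext j
    rw [coeff_zero]
    rcases Nat.eq_zero_or_pos j with rfl | hj
    · rw [PGE.coeff_zero_aeval]
      simp only [tupP_coeff_zero]
      exact hG1 t
    · obtain ⟨q, rfl⟩ : ∃ q, j = q + 1 := ⟨j - 1, by omega⟩
      by_cases hq : q < n t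
      · have h1 := hvF (some ⟨t, ⟨q, hq⟩⟩)
        have h2 := PGE.aeval_map (MvPolynomial.aeval v : MvPolynomial (S ⊕ Θ) k →ₐ[k] k) (G t) U
        simp only [hQ] at h2
        have h3 : (MvPolynomial.aeval (fun l => tupP D₁ D₂ v l) (G t)).coeff (q + 1) = 0 := by
          rw [← h2, coeff_map]
          exact h1
        exact h3
      · apply coeff_eq_zero_of_natDegree_lt
        exact lt_of_le_of_lt (hGd t _ (tupP_natDegree _ _ _)) (by omega)
  · have h1 := hvF none
    change MvPolynomial.aeval v (MvPolynomial.X (Sum.inl ⟨α₀, ⟨0, hα₀⟩⟩ : S ⊕ Θ)) = 0 at h1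
    rw [MvPolynomial.aeval_X] at h1
    have h2 := PGE.arcP_coeff (1 : k) (D₁ α₀) (fun q => v (Sum.inl ⟨α₀, q⟩)) ⟨0, hα₀⟩
    exact h2.trans h1
  · by_contra hno
    push Not at hno
    apply hv0
    funext s
    rcases s with ⟨α, q⟩ | ⟨α, q⟩
    · have h1 := congrArg (fun p => p.coeff (q.1 + 1)) (hno (Sum.inl α))
      have h2 := PGE.arcP_coeff (1 : k) (D₁ α) (fun q => v (Sum.inl ⟨α, q⟩)) q
      simp only [coeff_one] at h1
      rw [if_neg (by omega)] at h1
      exact h2.symm.trans h1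
    · have h1 := congrArg (fun p => p.coeff (q.1 + 1)) (hno (Sum.inr α))
      have h2 := PGE.arcP_coeff (1 : k) (D₂ α) (fun q => v (Sum.inr ⟨α, q⟩)) q
      simp only [coeff_one] at h1
      rw [if_neg (by omega)] at h1
      exact h2.symm.trans h1
  · intro H hH
    let V : A₁ → (MvPolynomial S k)[X] := fun α =>
      PGE.arcP 1 (D₁ α) fun q => MvPolynomial.X ⟨α, q⟩
    let φ : MvPolynomial (A₁ × ℕ) k →ₐ[k] MvPolynomial S k :=
      MvPolynomial.aeval fun s : A₁ × ℕ => (V s.1).coeff s.2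
    have h1 := hvG (φ H) (by
      have h2 : (MvPolynomial.aeval (fun s => (C (a s) * X ^ ω s : E[X])) :
          MvPolynomial S k →ₐ[k] E[X]).comp φ =
            MvPolynomial.aeval (fun s : A₁ × ℕ => (C ((P s.1).coeff s.2) * X ^ s.2 : E[X])) := by
        apply MvPolynomial.algHom_ext
        rintro ⟨α, j⟩
        rw [AlgHom.comp_apply, MvPolynomial.aeval_X, MvPolynomial.aeval_X]
        change (MvPolynomial.aeval (fun s => (C (a s) * X ^ ω s : E[X])) :
          MvPolynomial S k →ₐ[k] E[X]) ((V α).coeff j) = C ((P α).coeff j) * X ^ j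
        rcases Nat.eq_zero_or_pos j with rfl | hj
        · rw [hP0, PGE.arcP_coeff_zero, map_one, C_1, pow_zero, mul_one]
        · obtain ⟨q, rfl⟩ : ∃ q, j = q + 1 := ⟨j - 1, by omega⟩
          by_cases hq : q < D₁ α
          · have h3 : (V α).coeff (q + 1) = MvPolynomial.X ⟨α, ⟨q, hq⟩⟩ :=
              PGE.arcP_coeff _ _ _ ⟨q, hq⟩
            rw [h3, MvPolynomial.aeval_X]
          · have h3 : (V α).coeff (q + 1) = 0 := by
              apply coeff_eq_zero_of_natDegree_lt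
              exact lt_of_le_of_lt (PGE.arcP_natDegree _ _ _) (by omega)
            have h4 : (P α).coeff (q + 1) = 0 := by
              apply coeff_eq_zero_of_natDegree_lt
              exact lt_of_le_of_lt (hPd α) (by omega)
            rw [h3, h4, map_zero, C_0, zero_mul]
      have h3 := DFunLike.congr_fun h2 H
      rw [AlgHom.comp_apply] at h3
      rw [h3]
      exact hH)
    have h2 : (MvPolynomial.aeval (fun s => v (Sum.inl s)) : MvPolynomial S k →ₐ[k] k).comp φ =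
        MvPolynomial.aeval (fun s : A₁ × ℕ => (tupP D₁ D₂ v (Sum.inl s.1)).coeff s.2) := by
      apply MvPolynomial.algHom_ext
      rintro ⟨α, j⟩
      rw [AlgHom.comp_apply, MvPolynomial.aeval_X, MvPolynomial.aeval_X]
      change (MvPolynomial.aeval (fun s => v (Sum.inl s)) : MvPolynomial S k →ₐ[k] k)
        ((V α).coeff j) = (tupP D₁ D₂ v (Sum.inl α)).coeff j
      have h3 : (V α).map ((MvPolynomial.aeval (fun s => v (Sum.inl s)) :
          MvPolynomial S k →ₐ[k] k) : MvPolynomial S k →+* k) = tupP D₁ D₂ v (Sum.inl α) := by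
        change (PGE.arcP 1 (D₁ α) _).map _ = PGE.arcP 1 (D₁ α) _
        rw [PGE.arcP_map, map_one]
        simp only [RingHom.coe_coe, MvPolynomial.aeval_X]
      rw [← h3, coeff_map]
      rfl
    have h3 := DFunLike.congr_fun h2 H
    rw [AlgHom.comp_apply, h1] at h3
    exact h3.symm

end Pool.Agent.PGF
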