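import Pool.Agent.Helper45_PGF.Stmts
import Pool.Agent.Helper45_PGF.Basic

/-!
Module SOL: a non-constant arc with prescribed contact with the branch divisors.
-/

set_option autoImplicit false

open Polynomial

universe u v₁ v₂ v₃

namespace Pool.Agent.PGF

section aux

variable {k E : Type*} [Field k] [Field E] [Algebra k E]

lemma SpecTo.comp {A B : Type*} {P : A → E[X]} {Q : A → k[X]} (h : SpecTo P Q) (f : B → A) :
    SpecTo (fun b => P (f b)) (fun b => Q (f b)) := by
  intro G hG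
  have h1 := h (MvPolynomial.rename (fun s : B × ℕ => (f s.1, s.2)) G) (by
    rw [MvPolynomial.aeval_rename]
    exact hG)
  rw [MvPolynomial.aeval_rename] at h1
  exact h1

/-- degrees of weighted homogeneous expressions -/
lemma natDegree_aeval_hom {σ R : Type*} [CommRing R] [Algebra k R] (w : σ → ℕ) (e n : ℕ)
    (F : MvPolynomial σ k) (hF : F.IsWeightedHomogeneous w n) (x : σ → R[X])
    (hx : ∀ l, (x l).natDegree ≤ e * w l) : (MvPolynomial.aeval x F).natDegree ≤ e * n := by
  classical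
  rw [MvPolynomial.aeval_def, MvPolynomial.eval₂_eq]
  refine natDegree_sum_le_of_forall_le _ _ fun d hd => ?_
  refine (natDegree_mul_le).trans ?_
  have h1 : (algebraMap k R[X] (MvPolynomial.coeff d F)).natDegree = 0 := by
    rw [Polynomial.algebraMap_apply]
    exact natDegree_C _
  rw [h1, zero_add]
  refine (natDegree_prod_le _ _).trans ?_
  have h2 : Finsupp.weight w d = n := hF (MvPolynomial.mem_support_iff.mp hd)
  rw [← h2, Finsupp.weight_apply, Finsupp.sum, Finset.mul_sum]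
  refine Finset.sum_le_sum fun l _ => ?_
  refine natDegree_pow_le.trans ?_
  rw [smul_eq_mul]
  calc d l * (x l).natDegree ≤ d l * (e * w l) := Nat.mul_le_mul_left _ (hx l)
    _ = e * (d l * w l) := by ring

/-- the substitution `X l ↦ z l * X (f l)` -/
noncomputable def zsub {σ A : Type*} (z : σ → k) (f : σ → A) (F : MvPolynomial σ k) :
    MvPolynomial A k :=
  MvPolynomial.aeval (fun l => MvPolynomial.C (z l) * MvPolynomial.X (f l)) F

lemma aeval_zsub {σ A R : Type*} [CommRing R] [Algebra k R] (z : σ → k) (f : σ → A)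
    (F : MvPolynomial σ k) (x : A → R) :
    MvPolynomial.aeval x (zsub z f F) = MvPolynomial.aeval (fun l => algebraMap k R (z l) * x (f l)) F := by
  have h : (MvPolynomial.aeval x).comp (MvPolynomial.aeval
      (fun l => MvPolynomial.C (z l) * MvPolynomial.X (f l)) :
        MvPolynomial σ k →ₐ[k] MvPolynomial A k) =
      MvPolynomial.aeval (fun l => algebraMap k R (z l) * x (f l)) := by
    apply MvPolynomial.algHom_ext
    intro l
    rw [AlgHom.comp_apply, MvPolynomial.aeval_X, MvPolynomial.aeval_X, map_mul,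
      MvPolynomial.aeval_C, MvPolynomial.aeval_X]
  exact DFunLike.congr_fun h F

/-- a unit with constant term one is one -/
lemma eq_one_of_isUnit (p : k[X]) (hp : IsUnit p) (h0 : p.coeff 0 = 1) : p = 1 := by
  rw [eq_C_of_natDegree_eq_zero (natDegree_eq_zero_of_isUnit hp), h0, C_1]

end aux

theorem sol (hG : GMStmt.{u, u, max v₁ v₂, v₂, max v₂ v₃}) (hB : BUBStmt.{u, v₁}) :
    SOLStmt.{u, v₁, v₂, v₃} := by
  intro k _ _ _ σ ι τ _ _ _ w J e N m ℓ r n cc d g h z hw hJ hh hm hr hcc hcc0 hnum hR1 hR2 hz hgz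
  classical
  obtain ⟨E, _, _, p, b, s, hp, hpc, hbs, c, hc⟩ := hR2
  -- `e` is positive
  have he : 0 < e := by
    rcases Nat.eq_zero_or_pos e with h0 | h0
    · exfalso
      apply hpc
      have h1 : ∀ l, p l = 1 := by
        intro l
        have h2 := hp.2.1 l
        rw [h0, zero_mul] at h2
        rw [eq_C_of_natDegree_le_zero h2, hp.1 l, C_1]
      intro l l'
      rw [h1, h1, one_pow, one_pow]
    · exact h0
  obtain ⟨l₀, hl₀⟩ : ∃ l₀, 0 < w l₀ := by
    by_contra hno
    push Not at hno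
    have h1 : Finset.univ.gcd w = 0 := Finset.gcd_eq_zero_iff.mpr fun l _ => Nat.le_zero.mp (hno l)
    rw [h1] at hw
    exact absurd hw (by norm_num)
  let A₁ := σ ⊕ (ι ⊕ ι)
  let A₂ := ι ⊕ (Σ i : ι, Fin (n i))
  let P : A₁ → E[X] := Sum.elim p (Sum.elim b s)
  let D₁ : A₁ → ℕ := Sum.elim (fun l => e * w l)
    (Sum.elim (fun i => m i * ℓ i) fun i => (s i).natDegree)
  let D₂ : A₂ → ℕ := Sum.elim (fun i => ℓ i - r i) fun _ => 1
  let n' : ι ⊕ τ → ℕ := Sum.elim (fun i => m i * ℓ i) fun j => e * d j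
  let G : ι ⊕ τ → MvPolynomial (A₁ ⊕ A₂) k := Sum.elim
    (fun i => MvPolynomial.X (Sum.inl (Sum.inr (Sum.inl i))) -
      MvPolynomial.X (Sum.inr (Sum.inl i)) ^ m i *
        ∏ q : Fin (n i), MvPolynomial.X (Sum.inr (Sum.inr ⟨i, q⟩)) ^ cc i q)
    fun j => zsub z (fun l => Sum.inl (Sum.inl l)) (h j)
  have hGl : ∀ {R : Type u} [CommRing R] [Algebra k R] (i : ι) (x : A₁ ⊕ A₂ → R),
      MvPolynomial.aeval x (G (Sum.inl i)) = x (Sum.inl (Sum.inr (Sum.inl i))) -
        x (Sum.inr (Sum.inl i)) ^ m i * ∏ q : Fin (n i), x (Sum.inr (Sum.inr ⟨i, q⟩)) ^ cc i q := by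
    intro R _ _ i x
    simp only [G, Sum.elim_inl, map_sub, map_mul, map_pow, map_prod, MvPolynomial.aeval_X]
  have hGr : ∀ {R : Type u} [CommRing R] [Algebra k R] (j : τ) (x : A₁ ⊕ A₂ → R),
      MvPolynomial.aeval x (G (Sum.inr j)) =
        MvPolynomial.aeval (fun l => algebraMap k R (z l) * x (Sum.inl (Sum.inl l))) (h j) := by
    intro R _ _ j x
    exact aeval_zsub _ _ _ _
  have hccs : ∀ i, ∑ q : Fin (n i), cc i q = m i * r i := by
    intro i
    rw [← hcc i, Finset.sum_range]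
  obtain ⟨Q, hQ0, hQd, hQG, hQ1, ⟨α, hα⟩, hQS⟩ := hG k E A₁ A₂ (ι ⊕ τ) D₁ D₂ P N
    (fun j => (Sum.inl (c j).1, (c j).2)) n' G (Sum.inl l₀) (Nat.mul_pos he hl₀)
    (by
      rintro (l | i | i)
      · exact hp.1 l
      · exact (hbs i).2.1
      · exact (hbs i).2.2.1)
    (by
      rintro (l | i | i)
      · exact hp.2.1 l
      · exact (hbs i).1
      · exact le_rfl)
    hc
    (by
      rintro (i | j) Q hQ
      · rw [hGl]
        refine (natDegree_sub_le _ _).trans (max_le (hQ _) ?_)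
        change _ ≤ m i * ℓ i
        have h1 : m i * ℓ i = m i * (ℓ i - r i) + ∑ q : Fin (n i), cc i q := by
          rw [hccs, ← Nat.mul_add, Nat.sub_add_cancel (hr i)]
        rw [h1]
        refine natDegree_mul_le.trans (Nat.add_le_add ?_ ?_)
        · exact natDegree_pow_le.trans (Nat.mul_le_mul_left _ (hQ _))
        · refine (natDegree_prod_le _ _).trans (Finset.sum_le_sum fun q _ => ?_)
          refine natDegree_pow_le.trans ?_
          calc cc i q * _ ≤ cc i q * 1 := Nat.mul_le_mul_left _ (hQ _)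
            _ = cc i q := mul_one _
      · rw [hGr]
        refine natDegree_aeval_hom w e (d j) (h j) (hh j) _ fun l => ?_
        rw [Polynomial.algebraMap_apply]
        exact (natDegree_C_mul_le _ _).trans (hQ (Sum.inl (Sum.inl l))))
    (by
      rintro (i | j)
      · rw [← MvPolynomial.coe_aeval_eq_eval]
        change MvPolynomial.aeval (fun _ => (1 : k)) (G (Sum.inl i)) = 0
        rw [hGl]
        simp
      · rw [← MvPolynomial.coe_aeval_eq_eval]
        change MvPolynomial.aeval (fun _ => (1 : k)) (G (Sum.inr j)) = 0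
        rw [hGr]
        simp only [mul_one, Algebra.algebraMap_self, RingHom.id_apply]
        exact hz j)
    (by
      have h1 : ∑ i, (ℓ i - r i) + ∑ i, r i = ∑ i, ℓ i := by
        rw [← Finset.sum_add_distrib]
        exact Finset.sum_congr rfl fun i _ => Nat.sub_add_cancel (hr i)
      have h2 : ∑ t, n' t = ∑ i, m i * ℓ i + e * ∑ j, d j := by
        rw [Fintype.sum_sum_type, Finset.mul_sum]
        rfl
      have h3 : ∑ α, D₂ α = ∑ i, (ℓ i - r i) + ∑ i, n i := by
        rw [Fintype.sum_sum_type]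
        simp only [D₂, Sum.elim_inl, Sum.elim_inr]
        rw [Finset.sum_const, Finset.card_univ, Fintype.card_sigma]
        simp
      rw [h2, h3]
      omega)
  -- the specialization satisfies the equations
  have hArc : IsArc J w e z (fun l => Q (Sum.inl (Sum.inl l))) := by
    refine ⟨fun l => hQ0 _, fun l => hQd (Sum.inl (Sum.inl l)), fun F hF => ?_⟩
    have h1 := hQS.aeval_eq_zero (zsub z Sum.inl F) (by
      rw [aeval_zsub]
      exact hp.2.2 F hF)
    rw [aeval_zsub] at h1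
    exact h1
  have hh0 : ∀ j, MvPolynomial.aeval (fun l => C (z l) * Q (Sum.inl (Sum.inl l))) (h j) = 0 := by
    intro j
    have h1 := hQG (Sum.inr j)
    rw [hGr] at h1
    exact h1
  have hb0 : ∀ i, Q (Sum.inl (Sum.inr (Sum.inl i))) = Q (Sum.inr (Sum.inl i)) ^ m i *
      ∏ q : Fin (n i), Q (Sum.inr (Sum.inr ⟨i, q⟩)) ^ cc i q := by
    intro i
    have h1 := hQG (Sum.inl i)
    rw [hGl] at h1
    exact sub_eq_zero.mp h1
  have hg0 : ∀ i, MvPolynomial.aeval (fun l => C (z l) * Q (Sum.inl (Sum.inl l))) (g i) =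
      C (MvPolynomial.eval z (g i)) * (Q (Sum.inl (Sum.inr (Sum.inl i))) *
        Q (Sum.inl (Sum.inr (Sum.inr i))) ^ m i) := by
    intro i
    have h1 := hQS.aeval_eq_zero (zsub z Sum.inl (g i) - MvPolynomial.C (MvPolynomial.eval z (g i)) *
      (MvPolynomial.X (Sum.inr (Sum.inl i)) * MvPolynomial.X (Sum.inr (Sum.inr i)) ^ m i)) (by
        rw [map_sub, aeval_zsub, map_mul, MvPolynomial.aeval_C, map_mul, map_pow,
          MvPolynomial.aeval_X, MvPolynomial.aeval_X]
        exact sub_eq_zero.mpr (hbs i).2.2.2)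
    rw [map_sub, aeval_zsub, map_mul, MvPolynomial.aeval_C, map_mul, map_pow,
          MvPolynomial.aeval_X, MvPolynomial.aeval_X] at h1
    exact sub_eq_zero.mp h1
  have hlin : ∀ i (q : Fin (n i)), Q (Sum.inr (Sum.inr ⟨i, q⟩)) =
      1 + C ((Q (Sum.inr (Sum.inr ⟨i, q⟩))).coeff 1) * X := by
    intro i q
    have h1 : (Q (Sum.inr (Sum.inr ⟨i, q⟩))).natDegree ≤ 1 := hQd _
    have h2 := eq_X_add_C_of_natDegree_le_one h1
    rw [hQ0, C_1] at h2
    rw [add_comm]
    exact h2
  refine ⟨fun l => Q (Sum.inl (Sum.inl l)),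
    fun i => Q (Sum.inr (Sum.inl i)) * Q (Sum.inl (Sum.inr (Sum.inr i))),
    fun i q => if hq : q < n i then (Q (Sum.inr (Sum.inr ⟨i, ⟨q, hq⟩⟩))).coeff 1 else 0,
    hArc, ?_, hh0, ?_, ?_⟩
  · intro hcon
    -- the bubble lemma
    obtain ⟨c, hc⟩ : ∃ c : k, ∀ l, Q (Sum.inl (Sum.inl l)) = (1 + C c * X) ^ (e * w l) := by
      by_contra hno
      push Not at hno
      obtain ⟨e', he', p', hp', hpc'⟩ := hB k E σ w J z e p (fun l => Q (Sum.inl (Sum.inl l))) hw hJ
        hp hpc (hQS.comp Sum.inl) hArc.2.1 hArc.1 hcon hno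
      exact hpc' (hR1 e' he' p' hp')
    have hc0 : c = 0 := by
      rw [hc l₀] at hQ1
      have h1 : ((1 + C c * X : k[X]) ^ (e * w l₀)).coeff 1 = ((e * w l₀ : ℕ) : k) * c := by
        have h2 := coeff_derivative ((1 + C c * X : k[X]) ^ (e * w l₀)) 0
        simp only [Nat.cast_zero, zero_add, mul_one] at h2
        rw [← h2, coeff_zero_eq_eval_zero, derivative_pow]
        simp
      rw [h1] at hQ1
      rcases mul_eq_zero.mp hQ1 with h2 | h2
      · exact absurd (Nat.cast_eq_zero.mp h2) (Nat.mul_pos he hl₀).ne'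
      · exact h2
    have hx1 : ∀ l, Q (Sum.inl (Sum.inl l)) = 1 := by
      intro l
      rw [hc l, hc0, C_0, zero_mul, add_zero, one_pow]
    have hbs1 : ∀ i, Q (Sum.inl (Sum.inr (Sum.inl i))) *
        Q (Sum.inl (Sum.inr (Sum.inr i))) ^ m i = 1 := by
      intro i
      have h1 := hg0 i
      simp only [hx1, mul_one] at h1
      rw [PGE.aeval_C'] at h1
      have h2 : (C (MvPolynomial.eval z (g i)) : k[X]) ≠ 0 := by
        rw [Ne, C_eq_zero]
        exact hgz i
      refine mul_left_cancel₀ h2 ?_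
      rw [mul_one]
      exact h1.symm
    have hb1 : ∀ i, Q (Sum.inl (Sum.inr (Sum.inl i))) = 1 := fun i =>
      eq_one_of_isUnit _ (isUnit_of_dvd_one (Dvd.intro _ (hbs1 i))) (hQ0 _)
    have hs1 : ∀ i, Q (Sum.inl (Sum.inr (Sum.inr i))) = 1 := fun i =>
      eq_one_of_isUnit _ ((isUnit_pow_iff (hm i)).mp
        (isUnit_of_dvd_one (Dvd.intro_left _ (hbs1 i)))) (hQ0 _)
    have hζ1 : ∀ i, Q (Sum.inr (Sum.inl i)) = 1 := fun i =>
      eq_one_of_isUnit _ ((isUnit_pow_iff (hm i)).mp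
        (isUnit_of_dvd_one (Dvd.intro _ ((hb0 i).symm.trans (hb1 i))))) (hQ0 _)
    have hL1 : ∀ i (q : Fin (n i)), Q (Sum.inr (Sum.inr ⟨i, q⟩)) = 1 := fun i q =>
      eq_one_of_isUnit _ ((isUnit_pow_iff (hcc0 i q q.2)).mp
        (isUnit_of_dvd_one (dvd_trans
          (Finset.dvd_prod_of_mem (fun q : Fin (n i) => Q (Sum.inr (Sum.inr ⟨i, q⟩)) ^ cc i q)
            (Finset.mem_univ q)) (Dvd.intro_left _ ((hb0 i).symm.trans (hb1 i)))))) (hQ0 _)
    apply hα
    rcases α with (l | i | i) | (i | ⟨i, q⟩)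
    · exact hx1 l
    · exact hb1 i
    · exact hs1 i
    · exact hζ1 i
    · exact hL1 i q
  · intro i
    rw [mul_coeff_zero, hQ0, hQ0, mul_one]
  · intro i
    rw [hg0 i, hb0 i, mul_pow]
    have h1 : ∏ q ∈ Finset.range (n i), (1 + C (if hq : q < n i then
        (Q (Sum.inr (Sum.inr ⟨i, ⟨q, hq⟩⟩))).coeff 1 else 0) * X : k[X]) ^ cc i q =
          ∏ q : Fin (n i), Q (Sum.inr (Sum.inr ⟨i, q⟩)) ^ cc i q := by
      rw [Finset.prod_range]
      refine Finset.prod_congr rfl fun q _ => ?_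
      rw [dif_pos q.2]
      rw [← hlin i q]
    rw [h1]
    ring

end Pool.Agent.PGF
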